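import Pool.Agent.H801.Sp.Low

set_option autoImplicit false

/-!
# The constant of dynamic optimality of splaying is at least 13/4

`Tr`, `keys`, `IsBST`, `dep`, `costSplay` are those of `Pool.Agent.H581R2.SplayDef`; `opt T X`
(`Pool.Agent.Y395.SP.Stm`, with `Exec` of `Pool.Agent.TH49.Spl.Defs`) is the least cost of an execution
for the requests `X` with initial tree `T` (a request costs one plus the depth of the key, a rotation
anywhere costs one).

For every real `c < 13/4` there are a search tree `T` and a search tree `B` with the same keys such that
for every additive term `A`, however large, some request sequence `X` of keys of `T` has splay cost
greater than `c · OPT + A`, and even greater than `c` times the cost of the searches in the fixed tree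
`B`, plus `A`. So every constant for which Q1 holds is at least `13/4`, and the same is true for Q1 with
an additive term depending on the number of keys, and for the static optimality of splaying.

Proof. Take a binary tree whose leaves are the requested keys and whose inner nodes are separating keys
which are never requested, and let the requests visit the two subtrees of every inner node alternately.
With a suitable initial tree, splaying costs exactly one plus twice the depth of the leaf at each
request: below an inner node `z` with the last visited subtrees `(A x B)` on one side and `Y` on the
other side the splay tree is `x(A, z(B, Y))` or its mirror image, so that the tree `Y` hangs at depth two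
unchanged, and the last splaying step is a zig-zig. Now put the left part of a search tree for the
requested keys on one side (frequency 1/2), and its root and its right part on the other side
(frequencies 1/4 each), recursively `m` times. The mean cost is then `13 - 12 (3/4)^m` for splaying, and
`4 - 3 (3/4)^m` for the fixed search tree.
-/

namespace Pool.Agent.Results.MP_c42954_lc.ConstantLowerBound

open Pool.Agent.H581R2.Splay
open Pool.Agent.Y395.SP (opt)

theorem result (c : ℝ) (hc : c < 13 / 4) :
    ∃ T B : Tr, IsBST T ∧ IsBST B ∧ keys B = keys T ∧
      ∀ A : ℝ, ∃ X : List ℕ, (∀ x ∈ X, x ∈ keys T) ∧
        c * (opt T X : ℝ) + A < costSplay T X ∧
        c * ((X.map fun x => 1 + dep x B).sum : ℕ) + A < costSplay T X :=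
  Pool.Agent.H801.Sp.lower c hc

end Pool.Agent.Results.MP_c42954_lc.ConstantLowerBound
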